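import Pool.Agent.Lib.MP_d7b8a3_al.Nil

namespace Pool.Agent.Results.MP_d7b8a3_al.NilCommutative

open Pool.Agent.Lib.MP_d7b8a3_al

/-- Let `V` be an upper-modular element of the lattice of all epigroup varieties. Then every
nilsubvariety `N` of `V` is commutative, that is, satisfies the identity `xy = yx`. -/
theorem result (V : EpigroupVariety) (hV : IsUpperModular V) (N : EpigroupVariety) (hN : N ≤ V)
    (hnil : N.IsNil) :
    N.Satisfies (.mul (.var 0) (.var 1)) (.mul (.var 1) (.var 0)) :=
  nil_commutative hV hN hnil

end Pool.Agent.Results.MP_d7b8a3_al.NilCommutative
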