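import Pool.Agent.Lib.MP_d7b8a3_al.Final

namespace Pool.Agent.Results.MP_d7b8a3_al.NilSquares

open Pool.Agent.Lib.MP_d7b8a3_al

/-- Let `V` be an upper-modular element of the lattice of all epigroup varieties. Then every
nilsubvariety `N` of `V` satisfies the identity `x²y = xy²`. -/
theorem result (V : EpigroupVariety) (hV : IsUpperModular V) (N : EpigroupVariety) (hN : N ≤ V)
    (hnil : N.IsNil) :
    N.Satisfies (.mul (.mul (.var 0) (.var 0)) (.var 1))
      (.mul (.var 0) (.mul (.var 1) (.var 1))) := by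
  intro S hS ρ
  show ρ 0 * ρ 0 * ρ 1 = ρ 0 * (ρ 1 * ρ 1)
  rw [mul_assoc]
  exact nil_xxy hV hN hnil S hS ρ

end Pool.Agent.Results.MP_d7b8a3_al.NilSquares
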